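import Pool.Agent.Helper401.OBL.Main

/-!
Operator blocks in Lorentz spaces.  The set `D(L^{3/2,3})` is non-empty although
`(p, q) = (3/2, 3)` satisfies neither `1 ≤ q ≤ p ≤ 2` nor `2 ≤ p ≤ q`.
-/

set_option autoImplicit false

open scoped ENNReal
open Pool.Agent.Helper401.OBL

/-- `D(L^{3/2,3})` is non-empty; hence the conjectured equivalence fails. -/
theorem Pool.Agent.Results.MP_027bd7_an.Blocks.result :
    (D (3 / 2) 3).Nonempty ∧
    ¬ ∀ (p : ℝ) (q : ℝ≥0∞), 1 < p → 1 ≤ q →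
      ((D p q).Nonempty ↔
        (1 ≤ q ∧ q ≤ ENNReal.ofReal p ∧ p ≤ 2) ∨ (2 ≤ p ∧ ENNReal.ofReal p ≤ q)) := by
  refine ⟨D_nonempty, fun hall => ?_⟩
  rcases (hall (3 / 2) 3 (by norm_num) (by norm_num)).1 D_nonempty with ⟨_, h3, _⟩ | ⟨h3, _⟩
  · rw [show (3:ℝ≥0∞) = ENNReal.ofReal 3 by norm_num,
      ENNReal.ofReal_le_ofReal_iff (by norm_num)] at h3
    norm_num at h3
  · norm_num at h3
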